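import Pool.Agent.MP_6dccca_an.Q2

open scoped NNReal
open Pool.Agent.MP_6dccca_an

theorem Pool.Agent.Results.MP_6dccca_an.HammingInTsTs.result :
    ∃ ρ ω : ℝ≥0 → ℝ≥0, Monotone ρ ∧ Monotone ω ∧ Filter.Tendsto ρ Filter.atTop Filter.atTop ∧
      ∀ k : ℕ, ∃ f : (Fin k ↪o ℕ) → ℕ+ → TsirelsonDual,
        (∀ m, MemDualSum (f m)) ∧
        ∀ m n : Fin k ↪o ℕ, MemDualSum (f m - f n) ∧
          (ρ (hammingDist (m : Fin k → ℕ) n) : ℝ) ≤ dualSumNorm (f m - f n) ∧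
          dualSumNorm (f m - f n) ≤ (ω (hammingDist (m : Fin k → ℕ) n) : ℝ) :=
  hamming_embeds_dualSum
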