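import Pool.Agent.MP_6dccca_an.Q1

open scoped NNReal
open Pool.Agent.MP_6dccca_an

theorem Pool.Agent.Results.MP_6dccca_an.ReflexiveCounterexample.result :
    ∃ (Y : Type) (_ : NormedAddCommGroup Y) (_ : NormedSpace ℝ Y),
      CompleteSpace Y ∧ ¬ FiniteDimensional ℝ Y ∧
      Function.Surjective (NormedSpace.inclusionInDoubleDual ℝ Y) ∧
      IsAsymptoticSubsequentialC0 Y ∧
      ∃ ρ ω : ℝ≥0 → ℝ≥0, Monotone ρ ∧ Monotone ω ∧ Filter.Tendsto ρ Filter.atTop Filter.atTop ∧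
        ∀ k : ℕ, ∃ f : (Fin k ↪o ℕ) → Y, ∀ m n : Fin k ↪o ℕ,
          (ρ (hammingDist (m : Fin k → ℕ) n) : ℝ) ≤ ‖f m - f n‖ ∧
          ‖f m - f n‖ ≤ (ω (hammingDist (m : Fin k → ℕ) n) : ℝ) :=
  exists_space
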